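import Mathlib
import Pool.Agent.H33.SLat

set_option autoImplicit false

namespace Pool.Agent.Results.MP_cb28d9_gt.ChainsNotEnough

open Set Pool.Agent.H33.SLat

/-- s-completeness, with infima, suprema, upper and lower sets and closures computed in `Y`.
A subsemilattice is a subset closed under binary infima (in a semilattice `x ⊓ y` is the
infimum of `{x, y}`). -/
def SComplete (Y : Type) [PartialOrder Y] [TopologicalSpace Y] : Prop :=
  (∀ S : Set Y, S.Nonempty → (∀ x ∈ S, ∀ y ∈ S, ∀ z, IsGLB {x, y} z → z ∈ S) →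
    ∃ m, IsGLB S m ∧ m ∈ closure (upperClosure S : Set Y)) ∧
  ∀ C : Set Y, C.Nonempty → IsChain (· ≤ ·) C →
    ∃ m, IsLUB C m ∧ m ∈ closure (lowerClosure C : Set Y)

theorem result : ∃ (Y : Type) (_ : SemilatticeInf Y) (_ : TopologicalSpace Y),
    ContinuousInf Y ∧ T2Space Y ∧
      (∀ L : Set Y, IsMaxChain (· ≤ ·) L → SComplete L) ∧ ¬ SComplete Y := by
  refine ⟨X, inferInstance, inferInstance, inferInstance, inferInstance, fun L hL => ⟨?_, ?_⟩, ?_⟩
  · intro S hS _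
    obtain ⟨m, hm, h1, h2⟩ := chain_inf hL (Subtype.coe_image_subset L S) (hS.image _)
    refine ⟨⟨m, hm⟩, IsGLB.of_image (f := ((↑) : L → X)) Subtype.coe_le_coe h1,
      closure_subtype.2 (closure_mono ?_ h2)⟩
    rintro x ⟨hx, _, ⟨c, hc, rfl⟩, h⟩
    exact ⟨⟨x, hx⟩, ⟨c, hc, h⟩, rfl⟩
  · intro C hC _
    obtain ⟨_, ⟨m, hm, rfl⟩, h⟩ := chain_max (hL.1.mono (Subtype.coe_image_subset L C))
      (hC.image _)
    exact ⟨m, ⟨fun c hc => h _ ⟨c, hc, rfl⟩, fun _ k => k hm⟩,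
      subset_closure (subset_lowerClosure hm)⟩
  · intro h
    obtain ⟨m, h1, h2⟩ := h.1 {z : X | z.A.Finite} ⟨⟨∅, II ∅,
      fun _ _ hab hh => hh.imp fun _ k => ⟨k.1, hab.trans k.2⟩, .inr ⟨finite_empty, rfl⟩⟩,
      finite_empty⟩ fun x hx y hy z hz => by
        rw [hz.unique isGLB_pair]; exact Finite.union hx hy
    exact not_s h1 h2

end Pool.Agent.Results.MP_cb28d9_gt.ChainsNotEnough
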